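import Pool.Agent.H697.SSE.Final

/-!
# The small-set expansion conjecture on hereditary classes of graphs: a dichotomy

For a finite family `H` of finite graphs consider the small-set expansion problem for the regular
graphs which have no induced subgraph `H i`.

* If some `H i` is a forest with `h` vertices, then `SSE(η, δ)` is solvable in polynomial time on
  this class for all `δ` and all `η ≤ 1 / (612 (h + 1) ^ 4 16 ^ h)`; the bound does not depend on
  `δ`. So on this class the conjecture is false, unless `P = NP`.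
* If no `H i` is a forest, then the conjecture for this class is equivalent to the conjecture.
  It is even equivalent to the conjecture for bipartite graphs without cycles of length at most `g`
  which are regular of a bounded degree `Δ = Δ(η, δ, g)`. More precisely, for `δ ≤ η₀` and
  `2 η₀ < η`, `SSE(η₀, δ)` for all regular graphs reduces in polynomial time to `SSE(η, δ)` for
  this class, with the same `δ`.

The definitions used in the statement are in `Pool/Agent/H697/SSE/Defs.lean` (`Inst`, `nV`, `dg`,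
`darts`, `IsReg`, `gr`, `cut`, `Yes`, `No`, `Hard`, `Easy`, `SSEH`, `Free`), in
`Pool/Agent/H697/SSE/Main.lean` (`Nice`) and in `Pool/Graph/R_seed8/NPC/` (`PolyTime`, `InNP`,
`InP`, `InPP`, `bits`).
-/

namespace Pool.Agent.Results.MP_8d8c46_lc.ForbiddenSubgraphs

open Pool.Agent.NPC Pool.Agent.H697.SSE
open Pool.Agent.H697.SRed (Nice)

/-- The dichotomy. -/
theorem result :
    -- (1) graphs without a fixed induced forest: easy
    (∀ (α : Type) [Finite α] (H : SimpleGraph α), H.IsAcyclic → ∀ η δ : ℚ,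
      η * (612 * (Nat.card α + 1) ^ 4 * 16 ^ Nat.card α) ≤ 1 → 0 < δ → δ ≤ 1 →
      Easy (fun I => IsEmpty (H ↪g gr I)) (Yes η δ) (No η δ)) ∧
    -- (2) bipartite graphs of bounded degree and large girth: as hard as all regular graphs
    (∀ (g : ℕ) (η₀ η δ : ℚ), 0 < δ → δ ≤ η₀ → 2 * η₀ < η → η ≤ 1 → ∃ Δ : ℕ,
      (Hard (fun _ => True) (Yes η₀ δ) (No η₀ δ) → Hard (Nice g Δ) (Yes η δ) (No η δ)) ∧
      (Easy (Nice g Δ) (Yes η δ) (No η δ) → Easy (fun _ => True) (Yes η₀ δ) (No η₀ δ))) ∧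
    (∀ g : ℕ, SSEH (fun _ => True) ↔ ∀ η : ℚ, 0 < η → η < 1 / 2 →
      ∃ δ : ℚ, 0 < δ ∧ δ ≤ 1 / 2 ∧ ∃ Δ : ℕ, Hard (Nice g Δ) (Yes η δ) (No η δ)) ∧
    -- (3) the dichotomy for the conjecture
    (∀ (ι : Type) [Finite ι] (V : ι → Type) [∀ i, Finite (V i)] (H : ∀ i, SimpleGraph (V i)),
      ((∃ i, (H i).IsAcyclic) → SSEH (Free H) → ∀ L : Set (List Bool), InNP L → InP L) ∧
      ((∀ i, ¬ (H i).IsAcyclic) → (SSEH (Free H) ↔ SSEH fun _ => True))) := by
  have h1 : ∀ (α : Type) [Finite α] (H : SimpleGraph α), H.IsAcyclic → ∀ η δ : ℚ,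
      η * (612 * (Nat.card α + 1) ^ 4 * 16 ^ Nat.card α) ≤ 1 → 0 < δ → δ ≤ 1 →
      Easy (fun I => IsEmpty (H ↪g gr I)) (Yes η δ) (No η δ) := by
    intro α _ H hH η δ hη hδ hδ1
    have := Fintype.ofFinite α
    rw [Nat.card_eq_fintype_card] at hη
    refine easy_of_forest H hH ?_ hδ hδ1 fun I hI => hI
    refine le_trans (le_of_eq ?_) hη
    unfold cst
    push_cast
    ring
  have h3 : ∀ g : ℕ, (∀ η : ℚ, 0 < η → η < 1 / 2 →
      ∃ δ : ℚ, 0 < δ ∧ δ ≤ 1 / 2 ∧ ∃ Δ : ℕ, Hard (Nice g Δ) (Yes η δ) (No η δ)) →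
      SSEH fun _ => True := by
    intro g h η hη hη2
    obtain ⟨δ, hδ, hδ2, Δ, hh⟩ := h η hη hη2
    exact ⟨δ, hδ, hδ2, hh.mono (fun _ _ => trivial) (fun _ h => h) fun _ h => h⟩
  refine ⟨h1, fun g η₀ η δ => transfer g, fun g => ⟨nice_of_sseh g, h3 g⟩, ?_⟩
  intro ι _ V _ H
  refine ⟨?_, fun hH => ⟨?_, fun h => ?_⟩⟩
  · rintro ⟨i, hi⟩ h
    set c : ℚ := 612 * (Nat.card (V i) + 1) ^ 4 * 16 ^ Nat.card (V i) with hc
    have hc1 : 612 ≤ c := by
      have e1 : (1 : ℚ) ≤ ((Nat.card (V i) : ℚ) + 1) ^ 4 :=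
        one_le_pow₀ (by linarith [Nat.cast_nonneg (α := ℚ) (Nat.card (V i))])
      have e2 : (1 : ℚ) ≤ 16 ^ Nat.card (V i) := one_le_pow₀ (by norm_num)
      rw [hc]
      nlinarith
    have hc0 : 0 < c := by linarith
    obtain ⟨δ, hδ, hδ2, hh⟩ := h (1 / c) (by positivity) (by
      rw [div_lt_div_iff₀ hc0 (by norm_num)]
      linarith)
    refine hh.collapse ((h1 (V i) (H i) hi (1 / c) δ ?_ hδ (by linarith)).mono (fun I hI => hI i)
      (fun _ h => h) fun _ h => h)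
    rw [← hc, one_div, inv_mul_cancel₀ hc0.ne']
  · intro h η hη hη2
    obtain ⟨δ, hδ, hδ2, hh⟩ := h η hη hη2
    exact ⟨δ, hδ, hδ2, hh.mono (fun _ _ => trivial) (fun _ h => h) fun _ h => h⟩
  · obtain ⟨g, hg⟩ := exists_girth H hH
    intro η hη hη2
    obtain ⟨δ, hδ, hδ2, Δ, hh⟩ := nice_of_sseh g h η hη hη2
    exact ⟨δ, hδ, hδ2, hh.mono (hg Δ) (fun _ h => h) fun _ h => h⟩

end Pool.Agent.Results.MP_8d8c46_lc.ForbiddenSubgraphs
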