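import Pool.Agent.H697.SF.ClusEasy

/-!
# Small-set expansion in regular graphs with dense neighbourhoods: the exact threshold

Consider the problem to distinguish regular graphs with a set of `δ n` vertices of expansion at
most `η` from regular graphs in which every set of `δ n` vertices has expansion at least `s`. For
all regular graphs the small-set expansion conjecture says that this is `NP`-hard for `s` close
to `1` (`η` small, `δ` depending on `η`).

Call a regular graph `γ`-dense (`Dense γ`) if the mean value of the expansion of its closed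
neighbourhoods is at most `1 - γ`.  For example the `d`-regular graphs on `n` vertices with at least
`γ n d (d - 1) / 6` triangles are `γ`-dense (a fraction `γ` of the paths of length `2` is closed),
and the regular graphs without an induced star with `r + 1` leaves are `1 / r`-dense.

* For every `s > 1 - γ` the problem is in `P` on the `γ`-dense graphs, for all `δ` and all
  `η ≤ η₁(s)`.  So for `γ > 0` the conjecture for the `γ`-dense graphs is false unless `P = NP`.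
* For `γ = 1 / r` this is sharp: for every `s < 1 - 1 / r` the problem is as hard on the
  `1 / r`-dense graphs as small-set expansion for all regular graphs, even on line graphs of simple
  `r`-uniform hypergraphs which are regular of bounded degree (these have no induced star with
  `r + 1` leaves).

So the conjecture is equivalent to hardness for all `s < 1 - 1 / r`, all `r`, on these graphs.
The no-instances of the problem are those of `No (1 - s) δ`.

The definitions used in the statement are in `Pool/Agent/H697/SSE/Defs.lean` (`Inst`, `nV`, `dg`,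
`darts`, `IsReg`, `gr`, `cut`, `inner`, `Yes`, `No`, `Hard`, `Easy`, `SSEH`), in
`Pool/Agent/H697/SF/Clus.lean` (`Dense`), `Pool/Agent/H697/SF/ClusEasy.lean` (`Triangles`),
`Pool/Agent/H697/SF/Local.lean` (`StarFree`, `cN`, `nN`), `Pool/Agent/H697/SF/Red.lean` (`IsLine`)
and `Pool/Agent/H697/SF/Final.lean` (`Line`), and in `Pool/Graph/R_seed8/NPC/` (`PolyTime`, `InNP`,
`InP`, `InPP`, `bits`).
-/

namespace Pool.Agent.Results.MP_8d8c46_lc.StarFreeThreshold

open Pool.Agent.NPC Pool.Agent.H697.SSE Pool.Agent.H697.SF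

/-- The threshold. -/
theorem result :
    -- (1) above the threshold: easy
    (∀ γ ε : ℚ, 0 ≤ γ → γ ≤ 1 → 0 < ε → ∃ η₁ : ℚ, 0 < η₁ ∧
      ∀ η δ : ℚ, η ≤ η₁ → 0 < δ → δ ≤ 1 →
        Easy (Dense γ) (Yes η δ) (No (γ - ε) δ)) ∧
    (∀ γ ε : ℚ, 0 ≤ γ → γ ≤ 1 → 0 < ε → (∀ η : ℚ, 0 < η → ∃ δ : ℚ, 0 < δ ∧ δ ≤ 1 ∧
      Hard (Dense γ) (Yes η δ) (No (γ - ε) δ)) → ∀ L : Set (List Bool), InNP L → InP L) ∧
    (∀ γ : ℚ, 0 < γ → SSEH (Dense γ) → ∀ L : Set (List Bool), InNP L → InP L) ∧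
    (∀ (γ : ℚ) (I : Inst), γ ≤ 1 → IsReg I → Triangles γ I → Dense γ I) ∧
    (∀ (r : ℕ) (I : Inst), 1 ≤ r → IsReg I → StarFree r I → Dense (1 / r) I) ∧
    -- (2) below the threshold: as hard as the problem for all regular graphs
    (∀ r : ℕ, 2 ≤ r → ∀ ε η : ℚ, 0 < ε → 0 < η → ∃ η₀ : ℚ, 0 < η₀ ∧
      ∀ δ : ℚ, 0 < δ → δ ≤ η₀ → ∃ D : ℕ,
        (Hard (fun _ => True) (Yes η₀ δ) (No η₀ δ) →
          Hard (Line r D) (Yes η δ) (No (1 / r + ε) δ)) ∧
        (Easy (Line r D) (Yes η δ) (No (1 / r + ε) δ) →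
          Easy (fun _ => True) (Yes η₀ δ) (No η₀ δ))) ∧
    (∀ (r D : ℕ) (I : Inst), Line r D I → StarFree r I) ∧
    -- (3) the conjecture in terms of these graphs
    ((SSEH fun _ => True) ↔ ∀ r : ℕ, 2 ≤ r → ∀ η : ℚ, 0 < η → ∃ δ : ℚ, 0 < δ ∧ δ ≤ 1 / 2 ∧
      Hard (Dense (1 / r)) (Yes η δ) (No (1 / r + η) δ)) ∧
    ((SSEH fun _ => True) ↔ ∀ r : ℕ, 2 ≤ r → ∀ η : ℚ, 0 < η → ∃ δ : ℚ, 0 < δ ∧ δ ≤ 1 / 2 ∧
      Hard (StarFree r) (Yes η δ) (No (1 / r + η) δ)) ∧
    ((SSEH fun _ => True) ↔ ∀ r : ℕ, 2 ≤ r → ∀ η : ℚ, 0 < η → ∃ δ : ℚ, 0 < δ ∧ δ ≤ 1 / 2 ∧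
      ∃ D : ℕ, Hard (Line r D) (Yes η δ) (No (1 / r + η) δ)) := by
  have hsub : ∀ (r D : ℕ) (I : Inst), Line r D I → StarFree r I := fun r D I h => h.1.starFree
  refine ⟨fun γ ε h0 h1 hε => easy_dense h0 h1 hε, ?_, fun γ hγ h => collapse_dense hγ h,
    fun γ I hγ h hI => dense_of_triangles hγ h hI, fun r I hr h hI => dense_of_starFree hr h hI,
    ?_, hsub, ?_, ?_, ?_⟩
  · intro γ ε h0 h1 hε h
    obtain ⟨η₁, hη₁, he⟩ := easy_dense h0 h1 hε
    obtain ⟨δ, hδ, hδ1, hh⟩ := h η₁ hη₁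
    exact hh.collapse (he η₁ δ le_rfl hδ hδ1)
  · intro r hr ε η hε hη
    obtain ⟨η₀, hη₀, -, hred⟩ := exists_reduction_line hr hε hη
    refine ⟨η₀, hη₀, fun δ hδ hδη => ?_⟩
    obtain ⟨F, D, hF, hY, hN, -, -⟩ := hred δ hδ hδη
    exact ⟨D, fun h => h.of_reduction hF (fun I _ => hY I) (fun I _ => hN I),
      fun h => h.of_reduction hF (fun I _ => hY I) (fun I _ => hN I)⟩
  · refine ⟨fun h r hr η hη => ?_, sseh_of_dense⟩
    obtain ⟨δ, hδ, hδ2, D, hh⟩ := line_of_sseh h hr hη hη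
    exact ⟨δ, hδ, hδ2, hard_mono_reg hh (fun _ h => h.1) (fun _ h => h.1) fun I hI h =>
      dense_of_starFree (by omega) hI (hsub r D I h)⟩
  · refine ⟨fun h r hr η hη => ?_, sseh_of_star⟩
    obtain ⟨δ, hδ, hδ2, D, hh⟩ := line_of_sseh h hr hη hη
    exact ⟨δ, hδ, hδ2, hh.mono (hsub r D) (fun _ h => h) fun _ h => h⟩
  · refine ⟨fun h r hr η hη => line_of_sseh h hr hη hη, fun h => sseh_of_star ?_⟩
    intro r hr η hη
    obtain ⟨δ, hδ, hδ2, D, hh⟩ := h r hr η hη
    exact ⟨δ, hδ, hδ2, hh.mono (hsub r D) (fun _ h => h) fun _ h => h⟩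

end Pool.Agent.Results.MP_8d8c46_lc.StarFreeThreshold
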